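import Pool.Agent.Helper62.MU.St2

/-!
# Module ZD of project MU (MP_ae3a4d_gt): the zonal inequality
-/

set_option autoImplicit false

open MeasureTheory Metric Set Filter Topology Polynomial
open scoped RealInnerProductSpace

namespace Pool.Agent.Helper41.MU

open Pool.Agent.Helper62.MU2
open Pool.Agent.Helper62.Mink
open Pool.Agent.Helper62.Mink.Nec

/-- clamp to `[-1,1]` -/
noncomputable def cl (t : ℝ) : ℝ := max (-1) (min 1 t)

lemma cl_mem (t : ℝ) : cl t ∈ Icc (-1 : ℝ) 1 :=
  ⟨le_max_left _ _, max_le (by norm_num) (min_le_left _ _)⟩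

lemma cl_eq {t : ℝ} (h : t ∈ Icc (-1 : ℝ) 1) : cl t = t := by
  unfold cl
  rw [min_eq_right h.2, max_eq_right h.1]

lemma cl_cont : Continuous cl := by unfold cl; fun_prop

lemma coord_mem {n : ℕ} {w : E n} (hw : ‖w‖ = 1) (i : Fin n) : w i ∈ Icc (-1 : ℝ) 1 := by
  rw [mem_Icc, ← abs_le]
  have h := EuclideanSpace.norm_sq_eq w
  rw [hw] at h
  have h2 : ‖w i‖ ^ 2 ≤ ∑ j, ‖w j‖ ^ 2 :=
    Finset.single_le_sum (f := fun j => ‖w j‖ ^ 2) (fun j _ => sq_nonneg _) (Finset.mem_univ i)
  rw [Real.norm_eq_abs] at h2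
  have h3 : |w i| ^ 2 ≤ 1 := by linarith
  nlinarith [abs_nonneg (w i)]

/-- the integral of a zonal function over the sphere -/
lemma SI_zonal (m : ℕ) {G : ℝ → ℝ} (hG : Continuous G) {M : ℝ} (hM : ∀ x, |G x| ≤ M) :
    ∃ C W : ℝ, 0 < C ∧ 0 < W ∧ SI (fun w : E (m + 2) => G (w 0)) * W =
      C * ∫ θ in (0 : ℝ)..Real.pi, G (Real.cos θ) * Real.sin θ ^ m := by
  obtain ⟨C, hC, hz⟩ := zonal m hG hM
  refine ⟨C, ∫ r in Ioi (0 : ℝ), r ^ (m + 2 - 1 + 0 + 2) * wt r, hC, wt_integral_pos _, ?_⟩
  rw [← hz]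
  have e1 := integral_polar (n := m + 2) (by omega) (fun x : E (m + 2) => G (x 0 / ‖x‖)) 0
    (fun r => r ^ 2 * wt r) (fun c hc x _ => by
      rw [norm_smul, Real.norm_eq_abs, abs_of_pos hc, pow_zero, one_mul]
      congr 1
      rw [PiLp.smul_apply, smul_eq_mul]
      exact mul_div_mul_left _ _ hc.ne')
  have e2 : SI (fun w : E (m + 2) => G (w 0)) =
      ∫ w : sphere (0 : E (m + 2)) 1, G ((w : E (m + 2)) 0 / ‖(w : E (m + 2))‖)
        ∂(volume : Measure (E (m + 2))).toSphere := by
    unfold SI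
    refine integral_congr_ae (Filter.Eventually.of_forall fun w => ?_)
    have hw : ‖(w : E (m + 2))‖ = 1 := by simp
    simp only [hw, div_one]
  have e3 : ∫ r in Ioi (0 : ℝ), r ^ (m + 2 - 1 + 0 + 2) * wt r =
      ∫ r in Ioi (0 : ℝ), r ^ (m + 2 - 1 + 0) * (r ^ 2 * wt r) := by
    refine integral_congr_ae (Filter.Eventually.of_forall fun r => ?_)
    simp only
    ring
  rw [e2, e3, ← e1, integral_consE]
  refine integral_congr_ae (Filter.Eventually.of_forall fun p => ?_)
  simp only [consE_zero, norm_consE]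
  rw [Real.sq_sqrt (by positivity)]

theorem hZD (hZC : StZC) : StZD := by
  intro m f hm hf hgood p hp
  have hfc : Continuous (fun t => f (cl t)) := hf.comp_continuous cl_cont cl_mem
  set g : ℝ → ℝ := fun t => f (cl t) *
    (((m : ℝ) + 1) * (p.eval (cl t) - cl t * p.derivative.eval (cl t)) +
      (1 - cl t ^ 2) * p.derivative.derivative.eval (cl t)) with hg
  have hgc : Continuous g := by
    have c1 : Continuous (fun t => p.eval (cl t)) := p.continuous.comp cl_cont
    have c2 : Continuous (fun t => p.derivative.eval (cl t)) := p.derivative.continuous.comp cl_cont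
    have c3 : Continuous (fun t => p.derivative.derivative.eval (cl t)) :=
      p.derivative.derivative.continuous.comp cl_cont
    have c4 := cl_cont
    exact hfc.mul ((continuous_const.mul (c1.sub (c4.mul c2))).add
      ((continuous_const.sub (c4.pow 2)).mul c3))
  have hgg : ∀ t, g t = g (cl t) := by
    intro t
    simp only [hg, cl_eq (cl_mem t)]
  obtain ⟨M, hM⟩ := isCompact_Icc.exists_bound_of_continuousOn
    (hgc.continuousOn (s := Icc (-1 : ℝ) 1))
  have hgb : ∀ t, |g t| ≤ M := by
    intro t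
    rw [hgg]
    exact hM _ (cl_mem t)
  obtain ⟨C, W, hC, hW, hz⟩ := SI_zonal m hgc hgb
  -- the sum over the coordinates
  set φ : Fin (m + 1) → E (m + 2) → ℝ := fun i w => f (w 0) *
    ((p.eval (w 0) - w 0 * p.derivative.eval (w 0)) +
      p.derivative.derivative.eval (w 0) * (w i.succ) ^ 2) with hφ
  have hpos : ∀ i, 0 ≤ SI (φ i) := by
    intro i
    have h := hZC (m + 2) (EuclideanSpace.single 0 1) (EuclideanSpace.single i.succ 1) p f
      (by omega) (by simp) (by simp) (by
        rw [EuclideanSpace.inner_single_left]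
        simp [(Fin.succ_ne_zero i).symm]) hf hp
      hgood
    simpa [hφ, EuclideanSpace.inner_single_left] using h
  have hint : ∀ i, Integrable (fun w : sphere (0 : E (m + 2)) 1 => φ i w)
      (volume : Measure (E (m + 2))).toSphere := by
    intro i
    refine sphere_integrable (φ := φ i) ?_
    have k0 : ContinuousOn (fun w : E (m + 2) => f (w 0)) (sphere 0 1) := by
      refine hf.comp (by fun_prop) ?_
      intro w hw
      exact coord_mem (by simpa using hw) 0
    have c1 : Continuous (fun w : E (m + 2) => p.eval (w 0)) := p.continuous.comp (by fun_prop)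
    have c2 : Continuous (fun w : E (m + 2) => p.derivative.eval (w 0)) :=
      p.derivative.continuous.comp (by fun_prop)
    have c3 : Continuous (fun w : E (m + 2) => p.derivative.derivative.eval (w 0)) :=
      p.derivative.derivative.continuous.comp (by fun_prop)
    have c4 : Continuous (fun w : E (m + 2) => w 0) := by fun_prop
    have c5 : Continuous (fun w : E (m + 2) => w i.succ) := by fun_prop
    exact k0.mul ((c1.sub (c4.mul c2)).add (c3.mul (c5.pow 2))).continuousOn
  have hsum : SI (fun w : E (m + 2) => g (w 0)) = ∑ i, SI (φ i) := by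
    unfold SI
    rw [← integral_finsetSum _ (fun i _ => hint i)]
    refine integral_congr_ae (Filter.Eventually.of_forall fun w => ?_)
    have hw : ‖(w : E (m + 2))‖ = 1 := by simp
    have h1 := EuclideanSpace.norm_sq_eq (w : E (m + 2))
    rw [hw, Fin.sum_univ_succ] at h1
    simp only [Real.norm_eq_abs, sq_abs] at h1
    have h2 : ∑ i : Fin (m + 1), (w : E (m + 2)) i.succ ^ 2 = 1 - (w : E (m + 2)) 0 ^ 2 := by
      linarith
    simp only [hg, hφ, cl_eq (coord_mem hw 0)]
    rw [← Finset.mul_sum, Finset.sum_add_distrib, ← Finset.mul_sum, h2, Finset.sum_const,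
      Finset.card_univ, Fintype.card_fin, nsmul_eq_mul]
    push_cast
    ring
  have h0 : 0 ≤ SI (fun w : E (m + 2) => g (w 0)) := by
    rw [hsum]
    exact Finset.sum_nonneg fun i _ => hpos i
  unfold Zin
  have e2 : ∫ θ in (0 : ℝ)..Real.pi, g (Real.cos θ) * Real.sin θ ^ m =
      ∫ θ in (0 : ℝ)..Real.pi, f (Real.cos θ) *
        (((m : ℝ) + 1) * (p.eval (Real.cos θ) - Real.cos θ * p.derivative.eval (Real.cos θ)) +
        Real.sin θ ^ 2 * p.derivative.derivative.eval (Real.cos θ)) * Real.sin θ ^ m := by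
    refine intervalIntegral.integral_congr fun θ _ => ?_
    simp only [hg]
    rw [cl_eq (Real.cos_mem_Icc θ)]
    have : Real.sin θ ^ 2 = 1 - Real.cos θ ^ 2 := by
      have := Real.sin_sq_add_cos_sq θ
      linarith
    rw [this]
  rw [← e2]
  have h3 : 0 ≤ C * ∫ θ in (0 : ℝ)..Real.pi, g (Real.cos θ) * Real.sin θ ^ m := by
    rw [← hz]
    exact mul_nonneg h0 hW.le
  exact nonneg_of_mul_nonneg_right h3 hC

end Pool.Agent.Helper41.MU
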